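import Pool.Agent.H94.LP.Quant

/-!
# The symmetric Mahler inequality in all dimensions: equality cases and sharp stability

For `n ≥ 1` and every symmetric convex body `K` of `ℝ^n`

`4 ^ n / n! ≤ |K| |K°|`,

with equality if and only if `K` is a Hanner polytope, i.e. is built from the segment `[-1, 1]` by
products, free sums and invertible linear maps.  Moreover there is `c = c(n) > 0` such that every
symmetric convex body `K` lies between a Hanner polytope `H` and `(1 + t) H`, where
`4 ^ n / n! * (1 + c * min t 1) ≤ |K| |K°|`: the deficit in Mahler's inequality controls linearly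
the distance to the Hanner polytopes (the exponent `1` is optimal).

The inequality itself is in the library.  The equality cases come from the refined form of its proof
(`Pool.Agent.H11.LP`, `Pool.Agent.H53.LP`, `Pool.Agent.H93.LP`), the stability from a sharp count of
the volume gained over the facets of `H` and of `H°` (`Pool.Agent.H4.LP`, `Pool.Agent.H87.LP`,
`Pool.Agent.H59.LP`) and compactness (`Pool.Agent.H1.LP`).
-/

set_option autoImplicit false

noncomputable section

open MeasureTheory Set Filter Topology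
open scoped ENNReal RealInnerProductSpace Matrix Pointwise

namespace Pool.Agent.H94.OutOfList.MahlerStable

/-- centrally symmetric convex bodies -/
structure IsSymConvexBody {n : ℕ} (K : Set (EuclideanSpace ℝ (Fin n))) : Prop where
  isCompact : IsCompact K
  convex : Convex ℝ K
  interior_nonempty : (interior K).Nonempty
  neg_mem : ∀ x ∈ K, -x ∈ K

/-- the polar body -/
def polar {n : ℕ} (K : Set (EuclideanSpace ℝ (Fin n))) : Set (EuclideanSpace ℝ (Fin n)) :=
  {y | ∀ x ∈ K, inner ℝ x y ≤ 1}

/-- Hanner polytopes of `ℝ^n`: the sets obtained from the segment `[-1, 1]` of `ℝ` by products,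
free sums (convex hulls of the union of two Hanner polytopes placed in complementary coordinate
subspaces) and invertible linear maps -/
inductive IsHanner : (n : ℕ) → Set (EuclideanSpace ℝ (Fin n)) → Prop
  | seg : IsHanner 1 {x | |x 0| ≤ 1}
  | prod {a b : ℕ} {A : Set (EuclideanSpace ℝ (Fin a))} {B : Set (EuclideanSpace ℝ (Fin b))} :
      IsHanner a A → IsHanner b B →
      IsHanner (a + b) {x : EuclideanSpace ℝ (Fin (a + b)) |
        WithLp.toLp 2 (fun i => x (Fin.castAdd b i)) ∈ A ∧
        WithLp.toLp 2 (fun j => x (Fin.natAdd a j)) ∈ B}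
  | sum {a b : ℕ} {A : Set (EuclideanSpace ℝ (Fin a))} {B : Set (EuclideanSpace ℝ (Fin b))} :
      IsHanner a A → IsHanner b B →
      IsHanner (a + b) (convexHull ℝ
        ({x : EuclideanSpace ℝ (Fin (a + b)) |
            WithLp.toLp 2 (fun i => x (Fin.castAdd b i)) ∈ A ∧ ∀ j, x (Fin.natAdd a j) = 0} ∪
         {x : EuclideanSpace ℝ (Fin (a + b)) |
            (∀ i, x (Fin.castAdd b i) = 0) ∧ WithLp.toLp 2 (fun j => x (Fin.natAdd a j)) ∈ B}))
  | lin {n : ℕ} {A : Set (EuclideanSpace ℝ (Fin n))}
      (e : EuclideanSpace ℝ (Fin n) ≃ₗ[ℝ] EuclideanSpace ℝ (Fin n)) :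
      IsHanner n A → IsHanner n (e '' A)

open Pool.Agent.W678.LM Pool.Agent.W686.LP
open Pool.Agent.TH580.HL (Hanner)

variable {n : ℕ}

theorem mem_Lc {K : Set (E n)} {y : Fin n → ℝ} : y ∈ Lc n '' K ↔ WithLp.toLp 2 y ∈ K := by
  constructor
  · rintro ⟨x, hx, rfl⟩
    exact hx
  · intro h
    exact ⟨_, h, rfl⟩

/-- from Euclidean space to coordinates -/
theorem to_coord {K : Set (E n)} (h : IsHanner n K) : Hanner n (Lc n '' K) := by
  induction h with
  | seg =>
    have : Lc 1 '' {x : E 1 | |x 0| ≤ 1} = Set.Icc (-1) 1 := by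
      ext y
      rw [mem_Lc, mem_Icc, Pi.le_def, Pi.le_def]
      show |y 0| ≤ 1 ↔ _
      rw [abs_le]
      constructor
      · rintro ⟨h1, h2⟩
        refine ⟨fun i => ?_, fun i => ?_⟩
        · rw [Subsingleton.elim i 0]
          exact h1
        · rw [Subsingleton.elim i 0]
          exact h2
      · rintro ⟨h1, h2⟩
        exact ⟨h1 0, h2 0⟩
    rw [this]
    exact Hanner.seg
  | @prod a b A B _ _ ihA ihB =>
    have h1 := Hanner.prod ihA ihB
    convert h1 using 1
    ext y
    rw [mem_Lc]
    simp only [mem_ofPred_eq, mem_Lc]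
  | @sum a b A B _ _ ihA ihB =>
    have h1 := Hanner.sum ihA ihB
    convert h1 using 1
    rw [← LinearEquiv.coe_coe, LinearMap.image_convexHull, image_union]
    congr 2
    · ext y
      rw [LinearEquiv.coe_coe, mem_Lc]
      simp only [mem_ofPred_eq, mem_Lc]
    · ext y
      rw [LinearEquiv.coe_coe, mem_Lc]
      simp only [mem_ofPred_eq, mem_Lc]
  | @lin m A e _ ih =>
    have h1 := Hanner.lin ((Lc m).symm.trans (e.trans (Lc m))) ih
    convert h1 using 1
    rw [image_image, image_image]
    refine image_congr fun x _ => ?_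
    simp

/-- from coordinates to Euclidean space -/
theorem of_coord {H : Set (Fin n → ℝ)} (h : Hanner n H) : IsHanner n ((Lc n).symm '' H) := by
  have mem : ∀ {m : ℕ} {H : Set (Fin m → ℝ)} {x : E m}, x ∈ (Lc m).symm '' H ↔ Lc m x ∈ H := by
    intro m H x
    constructor
    · rintro ⟨y, hy, rfl⟩
      simpa using hy
    · intro hx
      exact ⟨_, hx, by simp⟩
  induction h with
  | seg =>
    have : (Lc 1).symm '' Set.Icc (-1) 1 = {x : E 1 | |x 0| ≤ 1} := by
      ext x
      rw [mem, mem_Icc, Pi.le_def, Pi.le_def, mem_ofPred_eq, abs_le]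
      constructor
      · rintro ⟨h1, h2⟩
        exact ⟨h1 0, h2 0⟩
      · rintro ⟨h1, h2⟩
        refine ⟨fun i => ?_, fun i => ?_⟩
        · rw [Subsingleton.elim i 0]
          exact h1
        · rw [Subsingleton.elim i 0]
          exact h2
    rw [this]
    exact IsHanner.seg
  | @prod a b A B _ _ ihA ihB =>
    have h1 := IsHanner.prod ihA ihB
    convert h1 using 1
    ext x
    rw [mem]
    simp only [mem_ofPred_eq, mem]
    exact Iff.rfl
  | @sum a b A B _ _ ihA ihB =>
    have h1 := IsHanner.sum ihA ihB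
    convert h1 using 1
    rw [← LinearEquiv.coe_coe, LinearMap.image_convexHull, image_union]
    congr 2
    · ext x
      rw [LinearEquiv.coe_coe, mem]
      simp only [mem_ofPred_eq, mem]
      exact Iff.rfl
    · ext x
      rw [LinearEquiv.coe_coe, mem]
      simp only [mem_ofPred_eq, mem]
      exact Iff.rfl
  | @lin m A e _ ih =>
    have h1 := IsHanner.lin ((Lc m).trans (e.trans (Lc m).symm)) ih
    convert h1 using 1
    rw [image_image, image_image]
    refine image_congr fun x _ => ?_
    simp

theorem hanner_iff {K : Set (E n)} : IsHanner n K ↔ Hanner n (Lc n '' K) := by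
  refine ⟨to_coord, fun h => ?_⟩
  have h1 := of_coord h
  rw [image_image] at h1
  simpa using h1

theorem body {K : Set (E n)} (h : IsSymConvexBody K) : SB (Lc n '' K) :=
  sb_of ⟨h.isCompact, h.convex, h.interior_nonempty, h.neg_mem⟩

theorem polar_image (K : Set (E n)) : Lc n '' polar K = Pol (Lc n '' K) := by
  ext y
  rw [mem_Lc]
  constructor
  · rintro h _ ⟨x, hx, rfl⟩
    have h1 := h x hx
    rw [Lc_inner] at h1
    rw [dotProduct_comm]
    exact h1
  · intro h x hx
    have h1 := h _ ⟨x, hx, rfl⟩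
    rw [Lc_inner]
    rw [dotProduct_comm] at h1
    exact h1

theorem mi_eq {K : Set (E n)} (h : IsSymConvexBody K) :
    Mi (Lc n '' K) = ENNReal.ofReal (n.factorial * (volume.real K * volume.real (polar K))) := by
  have h1 := (body h).cpt.measure_lt_top (μ := volume)
  have h2 := (Pool.Agent.H11.LP.Inv.SB_pol (body h)).cpt.measure_lt_top (μ := volume)
  rw [← polar_image, vol_Lc] at h2
  rw [vol_Lc] at h1
  unfold Mi
  rw [← polar_image, vol_Lc, vol_Lc, ENNReal.ofReal_mul (by positivity),
    ENNReal.ofReal_mul measureReal_nonneg, ENNReal.ofReal_natCast,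
    ofReal_measureReal h1.ne, ofReal_measureReal h2.ne]

/-- passage from `M_∞` to volumes -/
theorem le_iff {K : Set (E n)} (h : IsSymConvexBody K) {s : ℝ} :
    ENNReal.ofReal (4 ^ n * s) ≤ Mi (Lc n '' K) ↔
      (4 : ℝ) ^ n / n.factorial * s ≤ volume.real K * volume.real (polar K) := by
  have h3 : (0 : ℝ) < n.factorial := by positivity
  rw [mi_eq h, ENNReal.ofReal_le_ofReal_iff (by positivity)]
  constructor
  · intro h4
    rw [div_mul_eq_mul_div, div_le_iff₀ h3]
    linarith
  · intro h4
    rw [div_mul_eq_mul_div, div_le_iff₀ h3] at h4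
    linarith

theorem eq_iff {K : Set (E n)} (h : IsSymConvexBody K) :
    Mi (Lc n '' K) = ENNReal.ofReal (4 ^ n) ↔
      volume.real K * volume.real (polar K) = (4 : ℝ) ^ n / n.factorial := by
  have h3 : (0 : ℝ) < n.factorial := by positivity
  rw [mi_eq h, ENNReal.ofReal_eq_ofReal_iff (by positivity) (by positivity), eq_div_iff h3.ne']
  constructor
  · intro h4
    linarith
  · intro h4
    linarith

/-- **The symmetric Mahler inequality in all dimensions, with equality cases and stability.** -/
theorem result : ∀ n : ℕ, 1 ≤ n →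
    -- the inequality and its equality cases
    (∀ K : Set (EuclideanSpace ℝ (Fin n)), IsSymConvexBody K →
      (4 : ℝ) ^ n / n.factorial ≤ volume.real K * volume.real (polar K) ∧
      (volume.real K * volume.real (polar K) = (4 : ℝ) ^ n / n.factorial ↔ IsHanner n K)) ∧
    -- stability
    ∃ c : ℝ, 0 < c ∧ ∀ K : Set (EuclideanSpace ℝ (Fin n)), IsSymConvexBody K →
      ∃ (H : Set (EuclideanSpace ℝ (Fin n))) (t : ℝ), IsHanner n H ∧ 0 ≤ t ∧ H ⊆ K ∧
        K ⊆ (1 + t) • H ∧
        (4 : ℝ) ^ n / n.factorial * (1 + c * min t 1) ≤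
          volume.real K * volume.real (polar K) := by
  intro n hn
  refine ⟨fun K hK => ⟨?_, ?_⟩, ?_⟩
  · have h1 := Pool.Agent.H11.LP.S.Mi_ge (body hK)
    have h2 := (le_iff hK (s := 1)).1 (by rwa [mul_one])
    rwa [mul_one] at h2
  · rw [← eq_iff hK, hanner_iff]
    exact Pool.Agent.H53.LP.Eq.eqc hn (body hK)
  · obtain ⟨c, hc, h⟩ := Pool.Agent.H94.LP.Quant.quant n hn
    refine ⟨c, hc, fun K hK => ?_⟩
    obtain ⟨H, t, h1, h2, h3, h4, h5⟩ := h _ (body hK)
    refine ⟨(Lc n).symm '' H, t, of_coord h1, h2, ?_, ?_, (le_iff hK).1 h5⟩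
    · rintro _ ⟨y, hy, rfl⟩
      obtain ⟨x, hx, hxy⟩ := h3 hy
      rw [← hxy, LinearEquiv.symm_apply_apply]
      exact hx
    · intro x hx
      obtain ⟨y, hy, hxy⟩ := h4 ⟨x, hx, rfl⟩
      refine ⟨(Lc n).symm y, ⟨y, hy, rfl⟩, ?_⟩
      have hxy' : (1 + t) • y = Lc n x := hxy
      show (1 + t) • (Lc n).symm y = x
      rw [← map_smul, hxy', LinearEquiv.symm_apply_apply]

end Pool.Agent.H94.OutOfList.MahlerStable
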